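import Pool.Agent.H83.V.T1

/-!
Theorem V, row NUM: the constants.
-/

set_option autoImplicit false

open MeasureTheory ProbabilityTheory Filter Topology Finset
open scoped Nat ENNReal

namespace Pool.Agent.H56.V

open Pool.Agent.H67.AG (Inv)
open Pool.Agent.H83.V

theorem pf_NUM (hL : Pool.Agent.H28.LF.T_LAB) : T_NUM := by
  intro c
  have hγ1 : c.γ ≤ 1 := by
    have h := hL c.X c.μ c.T c.U c.s c.q c.m c.Bad c.a c.a Set.univ c.erg.toMeasurePreserving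
      c.hU c.sv c.am c.am MeasurableSet.univ
    exact c.hγ.trans h.2.2.1
  have h0 := c.γ0
  have hm : (1 : ℝ) ≤ (c.m : ℝ) := by exact_mod_cast c.m0
  have hm0 : (0 : ℝ) < (c.m : ℝ) := by linarith
  have eu : c.uh = c.γ ^ 2 / 8192 / c.m := by
    unfold Vx.uh kp
    field_simp
    ring
  have el : c.ulo = 8 * c.γ ^ 3 / 10 ^ 9 / c.m := by
    unfold Vx.ulo
    field_simp
  have g2 : 0 < c.γ ^ 2 := by positivity
  have g21 : c.γ ^ 2 ≤ 1 := pow_le_one₀ h0.le hγ1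
  have g31 : c.γ ^ 3 ≤ c.γ ^ 2 := pow_le_pow_of_le_one h0.le hγ1 (by norm_num)
  refine ⟨hγ1, ?_, ?_, ?_, ?_⟩
  · rw [el]; positivity
  · rw [el, eu]
    have : 1000 * (8 * c.γ ^ 3 / 10 ^ 9 / (c.m : ℝ)) = (1000 * (8 * c.γ ^ 3 / 10 ^ 9)) / c.m := by
      ring
    rw [this]
    apply div_lt_div_of_pos_right _ hm0
    nlinarith
  · rw [eu]
    calc c.γ ^ 2 / 8192 / (c.m : ℝ) ≤ c.γ ^ 2 / 8192 / 1 :=
          div_le_div_of_nonneg_left (by positivity) one_pos hm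
      _ ≤ 1 / 1000 := by linarith
  · rw [el]
    calc 8 * c.γ ^ 3 / 10 ^ 9 / (c.m : ℝ) ≤ 8 * c.γ ^ 3 / 10 ^ 9 / 1 :=
          div_le_div_of_nonneg_left (by positivity) one_pos hm
      _ ≤ 1 / 1000000 := by linarith

end Pool.Agent.H56.V
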